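import Pool.Agent.D0H61.AB.Stm

/-!
Module CNT of the project AB: Rankin's bound for the number of the triples.
-/

set_option autoImplicit false

namespace Pool.Agent.D0H9.AB

open Finset
open Pool.Agent.D0H61.AB

theorem rad_mul (a b : ℕ) (h : Nat.Coprime a b) : rad (a * b) = rad a * rad b := by
  unfold rad
  rw [h.primeFactors_mul, Finset.prod_union h.disjoint_primeFactors]

theorem rad_pos (a : ℕ) : 0 < rad a := by
  unfold rad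
  exact Finset.prod_pos fun p hp => (Nat.prime_of_mem_primeFactors hp).pos

theorem t_CNT : S_CNT := by
  intro σ hσ hσ1 N Y hY
  classical
  obtain ⟨f, hf⟩ : ∃ f : ℕ → ℝ, ∀ n, f n = (n : ℝ) ^ (-σ) * (rad n : ℝ) ^ (σ - 1) := ⟨_, fun _ => rfl⟩
  have hf0 : ∀ n, 0 ≤ f n := by
    intro n
    rw [hf]
    positivity
  obtain ⟨W, hW⟩ : ∃ W : ℝ, W = Y ^ (1 - σ) * (N : ℝ) ^ (3 * σ) := ⟨_, rfl⟩
  have hW0 : 0 ≤ W := by rw [hW]; positivity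
  have key : ∀ t ∈ trip N Y, (1 : ℝ) ≤ W * (f t.1 * (f t.2.1 * f t.2.2)) := by
    rintro ⟨a, b, c⟩ ht
    unfold trip at ht
    rw [mem_filter, mem_product, mem_product, mem_Icc, mem_Icc, mem_Icc] at ht
    obtain ⟨⟨⟨ha1, ha2⟩, ⟨hb1, hb2⟩, hc1, hc2⟩, ⟨-, -, -, hab, hac, hbc⟩, hr⟩ := ht
    simp only at ha1 ha2 hb1 hb2 hc1 hc2 hab hac hbc hr ⊢
    have hrad : rad (a * b * c) = rad a * rad b * rad c := by
      rw [rad_mul _ _ (Nat.Coprime.mul_left hac hbc), rad_mul _ _ hab]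
    have hA : (0 : ℝ) < a := by exact_mod_cast ha1
    have hB : (0 : ℝ) < b := by exact_mod_cast hb1
    have hC : (0 : ℝ) < c := by exact_mod_cast hc1
    have hN : (0 : ℝ) < N := by exact_mod_cast (lt_of_lt_of_le ha1 ha2)
    have hA2 : (a : ℝ) ≤ N := by exact_mod_cast ha2
    have hB2 : (b : ℝ) ≤ N := by exact_mod_cast hb2
    have hC2 : (c : ℝ) ≤ N := by exact_mod_cast hc2
    have hra : (0 : ℝ) < rad a := by exact_mod_cast rad_pos a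
    have hrb : (0 : ℝ) < rad b := by exact_mod_cast rad_pos b
    have hrc : (0 : ℝ) < rad c := by exact_mod_cast rad_pos c
    rw [hrad] at hr
    push_cast at hr
    have h1 : ((rad a : ℝ) * rad b * rad c) ^ (1 - σ) ≤ Y ^ (1 - σ) :=
      Real.rpow_le_rpow (by positivity) hr (by linarith)
    rw [Real.mul_rpow (by positivity) hrc.le, Real.mul_rpow hra.le hrb.le] at h1
    have h2 : (a : ℝ) ^ σ ≤ (N : ℝ) ^ σ := Real.rpow_le_rpow hA.le hA2 hσ.le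
    have h3 : (b : ℝ) ^ σ ≤ (N : ℝ) ^ σ := Real.rpow_le_rpow hB.le hB2 hσ.le
    have h4 : (c : ℝ) ^ σ ≤ (N : ℝ) ^ σ := Real.rpow_le_rpow hC.le hC2 hσ.le
    have h5 : (N : ℝ) ^ (3 * σ) = (N : ℝ) ^ σ * ((N : ℝ) ^ σ * (N : ℝ) ^ σ) := by
      rw [← Real.rpow_add hN, ← Real.rpow_add hN]
      congr 1
      ring
    have g1 : ∀ n : ℕ, (0 : ℝ) < n → (0 : ℝ) < rad n →
        f n = ((n : ℝ) ^ σ * (rad n : ℝ) ^ (1 - σ))⁻¹ := by
      intro n hn hr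
      rw [hf, Real.rpow_neg hn.le, show σ - 1 = -(1 - σ) by ring, Real.rpow_neg hr.le, mul_inv]
    rw [g1 a hA hra, g1 b hB hrb, g1 c hC hrc, ← mul_inv, ← mul_inv, ← div_eq_mul_inv,
      one_le_div (by positivity), hW, h5]
    calc (a : ℝ) ^ σ * (rad a : ℝ) ^ (1 - σ) * ((b : ℝ) ^ σ * (rad b : ℝ) ^ (1 - σ) *
          ((c : ℝ) ^ σ * (rad c : ℝ) ^ (1 - σ)))
        = ((rad a : ℝ) ^ (1 - σ) * (rad b : ℝ) ^ (1 - σ) * (rad c : ℝ) ^ (1 - σ)) *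
          ((a : ℝ) ^ σ * ((b : ℝ) ^ σ * (c : ℝ) ^ σ)) := by ring
      _ ≤ Y ^ (1 - σ) * ((N : ℝ) ^ σ * ((N : ℝ) ^ σ * (N : ℝ) ^ σ)) := by
          gcongr
  have h6 : ((trip N Y).card : ℝ) ≤ ∑ t ∈ trip N Y, W * (f t.1 * (f t.2.1 * f t.2.2)) := by
    calc ((trip N Y).card : ℝ) = ∑ t ∈ trip N Y, (1 : ℝ) := by simp
      _ ≤ _ := Finset.sum_le_sum key
  have h7 : ∑ t ∈ trip N Y, W * (f t.1 * (f t.2.1 * f t.2.2)) ≤
      ∑ t ∈ (Icc 1 N) ×ˢ ((Icc 1 N) ×ˢ (Icc 1 N)), W * (f t.1 * (f t.2.1 * f t.2.2)) := by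
    apply Finset.sum_le_sum_of_subset_of_nonneg (Finset.filter_subset _ _)
    intro t _ _
    exact mul_nonneg hW0 (mul_nonneg (hf0 _) (mul_nonneg (hf0 _) (hf0 _)))
  have h8 : ∑ t ∈ (Icc 1 N) ×ˢ ((Icc 1 N) ×ˢ (Icc 1 N)), W * (f t.1 * (f t.2.1 * f t.2.2)) =
      W * (∑ n ∈ Icc 1 N, f n) ^ 3 := by
    rw [← Finset.mul_sum, Finset.sum_product]
    congr 1
    simp only [Finset.sum_product, ← Finset.mul_sum]
    rw [← Finset.sum_mul, ← Finset.sum_mul]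
    ring
  have h9 : ∑ n ∈ Icc 1 N, (n : ℝ) ^ (-σ) * (rad n : ℝ) ^ (σ - 1) = ∑ n ∈ Icc 1 N, f n :=
    Finset.sum_congr rfl fun n _ => (hf n).symm
  rw [h9, ← hW]
  linarith

end Pool.Agent.D0H9.AB
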