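import Pool.Agent.D0H61.AB.Stm

/-!
Module PZ of the project AB: the second moment inequality.
-/

set_option autoImplicit false

namespace Pool.Agent.D0H9.AB

open Finset MeasureTheory
open Pool.Agent.D0H61.AB

theorem pz_core (ν : Measure ℝ) [IsFiniteMeasure ν] (ι : Type) (I : Finset ι) (A : ι → Set ℝ)
    (hA : ∀ i ∈ I, MeasurableSet (A i)) :
    (∑ i ∈ I, ν.real (A i)) ^ 2 ≤ ν.real (⋃ i ∈ I, A i) * ∑ i ∈ I, ∑ j ∈ I, ν.real (A i ∩ A j) := by
  classical
  obtain ⟨U, hU⟩ : ∃ U : Set ℝ, U = ⋃ i ∈ I, A i := ⟨_, rfl⟩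
  have hUm : MeasurableSet U := by
    rw [hU]
    exact Finset.measurableSet_biUnion I hA
  rw [← hU]
  have hint : ∀ S : Set ℝ, MeasurableSet S → Integrable (S.indicator (1 : ℝ → ℝ)) ν := fun S hS =>
    (integrable_const (1 : ℝ)).indicator hS
  have hsub : ∀ i ∈ I, A i ⊆ U := by
    intro i hi
    rw [hU]
    exact Set.subset_biUnion_of_mem (u := A) hi
  have key : ∀ l : ℝ, 0 ≤ ν.real U * (l * l) + (-2 * ∑ i ∈ I, ν.real (A i)) * l +
      ∑ i ∈ I, ∑ j ∈ I, ν.real (A i ∩ A j) := by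
    intro l
    have h1 : ∀ w : ℝ, 0 ≤ l * l * U.indicator (1 : ℝ → ℝ) w +
        (-2 * l) * ∑ i ∈ I, (A i).indicator (1 : ℝ → ℝ) w +
        ∑ i ∈ I, ∑ j ∈ I, (A i ∩ A j).indicator (1 : ℝ → ℝ) w := by
      intro w
      have e1 : ∑ i ∈ I, ∑ j ∈ I, (A i ∩ A j).indicator (1 : ℝ → ℝ) w =
          (∑ i ∈ I, (A i).indicator (1 : ℝ → ℝ) w) ^ 2 := by
        rw [sq, Finset.sum_mul_sum]
        refine Finset.sum_congr rfl fun i _ => Finset.sum_congr rfl fun j _ => ?_
        rw [Set.inter_indicator_one]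
        rfl
      rw [e1]
      by_cases hw : w ∈ U
      · rw [Set.indicator_of_mem hw, Pi.one_apply]
        nlinarith [sq_nonneg (l - ∑ i ∈ I, (A i).indicator (1 : ℝ → ℝ) w)]
      · have e2 : ∑ i ∈ I, (A i).indicator (1 : ℝ → ℝ) w = 0 := by
          apply Finset.sum_eq_zero
          intro i hi
          exact Set.indicator_of_notMem (fun h => hw (hsub i hi h)) _
        rw [e2, Set.indicator_of_notMem hw]
        simp
    have h2 : 0 ≤ ∫ w, (l * l * U.indicator (1 : ℝ → ℝ) w +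
        (-2 * l) * ∑ i ∈ I, (A i).indicator (1 : ℝ → ℝ) w +
        ∑ i ∈ I, ∑ j ∈ I, (A i ∩ A j).indicator (1 : ℝ → ℝ) w) ∂ν := by
      apply integral_nonneg
      intro w
      exact h1 w
    have i1 : Integrable (fun w => l * l * U.indicator (1 : ℝ → ℝ) w) ν := (hint U hUm).const_mul _
    have i2 : Integrable (fun w => ∑ i ∈ I, (A i).indicator (1 : ℝ → ℝ) w) ν :=
      integrable_finsetSum _ fun i hi => hint _ (hA i hi)
    have i2' : Integrable (fun w => (-2 * l) * ∑ i ∈ I, (A i).indicator (1 : ℝ → ℝ) w) ν :=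
      i2.const_mul _
    have i3 : Integrable (fun w => ∑ i ∈ I, ∑ j ∈ I, (A i ∩ A j).indicator (1 : ℝ → ℝ) w) ν :=
      integrable_finsetSum _ fun i hi => integrable_finsetSum _ fun j hj =>
        hint _ ((hA i hi).inter (hA j hj))
    have i12 : Integrable (fun w => l * l * U.indicator (1 : ℝ → ℝ) w +
        (-2 * l) * ∑ i ∈ I, (A i).indicator (1 : ℝ → ℝ) w) ν := i1.add i2'
    have s1 : ∑ i ∈ I, ∫ w, (A i).indicator (1 : ℝ → ℝ) w ∂ν = ∑ i ∈ I, ν.real (A i) :=
      Finset.sum_congr rfl fun i hi => integral_indicator_one (hA i hi)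
    have s2 : ∑ i ∈ I, ∫ w, ∑ j ∈ I, (A i ∩ A j).indicator (1 : ℝ → ℝ) w ∂ν =
        ∑ i ∈ I, ∑ j ∈ I, ν.real (A i ∩ A j) := by
      refine Finset.sum_congr rfl fun i hi => ?_
      rw [integral_finsetSum _ fun j hj => hint _ ((hA i hi).inter (hA j hj))]
      exact Finset.sum_congr rfl fun j hj => integral_indicator_one ((hA i hi).inter (hA j hj))
    have e3 : ∫ w, (l * l * U.indicator (1 : ℝ → ℝ) w +
        (-2 * l) * ∑ i ∈ I, (A i).indicator (1 : ℝ → ℝ) w +
        ∑ i ∈ I, ∑ j ∈ I, (A i ∩ A j).indicator (1 : ℝ → ℝ) w) ∂ν =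
        l * l * ν.real U + (-2 * l) * (∑ i ∈ I, ν.real (A i)) +
          ∑ i ∈ I, ∑ j ∈ I, ν.real (A i ∩ A j) := by
      rw [integral_add i12 i3, integral_add i1 i2', integral_const_mul,
        integral_const_mul, integral_indicator_one hUm,
        integral_finsetSum _ fun i hi => hint _ (hA i hi),
        integral_finsetSum _ fun i hi => integrable_finsetSum _ fun j hj =>
          hint _ ((hA i hi).inter (hA j hj)), s1, s2]
    rw [e3] at h2
    linarith
  have h4 := discrim_le_zero key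
  unfold discrim at h4
  nlinarith

theorem t_PZ : S_PZ := by
  intro x y ι I A _ hA
  have h1 := pz_core (volume.restrict (Set.Icc x y)) ι I A hA
  have e1 : ∀ S : Set ℝ, MeasurableSet S →
      (volume.restrict (Set.Icc x y)).real S = (volume (Set.Icc x y ∩ S)).toReal := by
    intro S hS
    rw [Measure.real, Measure.restrict_apply hS, Set.inter_comm]
  rw [e1 _ (Finset.measurableSet_biUnion I hA)] at h1
  have e2 : ∑ i ∈ I, (volume.restrict (Set.Icc x y)).real (A i) =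
      ∑ i ∈ I, (volume (Set.Icc x y ∩ A i)).toReal :=
    Finset.sum_congr rfl fun i hi => e1 _ (hA i hi)
  have e3 : ∑ i ∈ I, ∑ j ∈ I, (volume.restrict (Set.Icc x y)).real (A i ∩ A j) =
      ∑ i ∈ I, ∑ j ∈ I, (volume (Set.Icc x y ∩ A i ∩ A j)).toReal := by
    refine Finset.sum_congr rfl fun i hi => Finset.sum_congr rfl fun j hj => ?_
    rw [e1 _ ((hA i hi).inter (hA j hj)), Set.inter_assoc]
  rwa [e2, e3] at h1

end Pool.Agent.D0H9.AB
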