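import Pool.Agent.D0H61.AB.Stm2

/-!
Module SIMP of the project AB: the integer points of a simplex.
-/

set_option autoImplicit false

namespace Pool.Agent.D0H9.AB

open Finset
open Pool.Agent.D0H61.AB

theorem pow_diff (n : ℕ) (a b : ℝ) (hb : 0 ≤ b) (hab : b ≤ a) :
    a ^ (n + 1) - b ^ (n + 1) ≤ ((n : ℝ) + 1) * a ^ n * (a - b) := by
  induction n with
  | zero => simp
  | succ n ih =>
    have ha : 0 ≤ a := hb.trans hab
    have h1 : b ^ (n + 1) ≤ a ^ (n + 1) := pow_le_pow_left₀ hb hab _
    have h3 := mul_le_mul_of_nonneg_left ih ha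
    have h4 := mul_le_mul_of_nonneg_left h1 (sub_nonneg.2 hab)
    calc a ^ (n + 1 + 1) - b ^ (n + 1 + 1)
        = a * (a ^ (n + 1) - b ^ (n + 1)) + (a - b) * b ^ (n + 1) := by ring
      _ ≤ a * (((n : ℝ) + 1) * a ^ n * (a - b)) + (a - b) * a ^ (n + 1) := add_le_add h3 h4
      _ = (((n + 1 : ℕ) : ℝ) + 1) * a ^ (n + 1) * (a - b) := by push_cast; ring

theorem sum_ge (n : ℕ) (M w : ℝ) (hM : 0 ≤ M) (hw : 0 < w) :
    M ^ (n + 1) / (((n : ℝ) + 1) * w) ≤ ∑ j ∈ range (⌊M / w⌋₊ + 1), (M - j * w) ^ n := by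
  obtain ⟨K, hK⟩ : ∃ K : ℕ, K = ⌊M / w⌋₊ := ⟨_, rfl⟩
  rw [← hK]
  obtain ⟨x, hx⟩ : ∃ x : ℕ → ℝ, ∀ j, x j = max (M - j * w) 0 := ⟨_, fun _ => rfl⟩
  have hx0 : ∀ j, 0 ≤ x j := fun j => by rw [hx]; exact le_max_right _ _
  have hmono : ∀ j, x (j + 1) ≤ x j := by
    intro j
    rw [hx, hx]
    apply max_le_max_right
    push_cast
    linarith
  have hdif : ∀ j, x j - x (j + 1) ≤ w := by
    intro j
    rw [hx, hx]
    push_cast
    have h1 : M - (j + 1) * w ≤ max (M - (j + 1) * w) 0 := le_max_left _ _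
    have h2 : (0 : ℝ) ≤ max (M - (j + 1) * w) 0 := le_max_right _ _
    have h3 : max (M - j * w) 0 ≤ max (M - (j + 1) * w) 0 + w := max_le (by linarith) (by linarith)
    linarith
  have h1 : ∀ j, x j ^ (n + 1) - x (j + 1) ^ (n + 1) ≤ ((n : ℝ) + 1) * w * x j ^ n := by
    intro j
    calc x j ^ (n + 1) - x (j + 1) ^ (n + 1) ≤ ((n : ℝ) + 1) * x j ^ n * (x j - x (j + 1)) :=
          pow_diff n _ _ (hx0 _) (hmono j)
      _ ≤ ((n : ℝ) + 1) * x j ^ n * w := by
          apply mul_le_mul_of_nonneg_left (hdif j)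
          have := hx0 j
          positivity
      _ = _ := by ring
  have h2 : ∑ j ∈ range (K + 1), (x j ^ (n + 1) - x (j + 1) ^ (n + 1)) =
      x 0 ^ (n + 1) - x (K + 1) ^ (n + 1) := Finset.sum_range_sub' (fun j => x j ^ (n + 1)) (K + 1)
  have h3 : x 0 = M := by
    rw [hx]
    push_cast
    rw [zero_mul, sub_zero, max_eq_left hM]
  have h4 : x (K + 1) = 0 := by
    rw [hx]
    apply max_eq_right
    have h5 : M / w < K + 1 := by rw [hK]; exact Nat.lt_floor_add_one _
    rw [div_lt_iff₀ hw] at h5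
    push_cast
    linarith
  have h5 : ∑ j ∈ range (K + 1), (M - j * w) ^ n = ∑ j ∈ range (K + 1), x j ^ n := by
    refine Finset.sum_congr rfl fun j hj => ?_
    rw [mem_range] at hj
    have h6 : (j : ℝ) ≤ K := by exact_mod_cast (by omega : j ≤ K)
    have h7 : (K : ℝ) ≤ M / w := by rw [hK]; exact Nat.floor_le (by positivity)
    have h8 : (j : ℝ) * w ≤ M := (le_div_iff₀ hw).1 (h6.trans h7)
    rw [hx, max_eq_left (by linarith)]
  rw [h5, div_le_iff₀ (by positivity)]
  have h6 := Finset.sum_le_sum fun j (_ : j ∈ range (K + 1)) => h1 j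
  rw [h2, h3, h4, ← Finset.mul_sum, zero_pow (by omega), sub_zero] at h6
  linarith

theorem simp_aux (ι : Type) [DecidableEq ι] (w : ι → ℝ) (P : Finset ι) :
    (∀ i ∈ P, 0 < w i) → ∀ M : ℝ, 0 ≤ M →
    ∃ F : Finset (ι → ℕ), M ^ P.card / (P.card.factorial * ∏ i ∈ P, w i) ≤ F.card ∧
      ∀ f ∈ F, (∀ i, i ∉ P → f i = 0) ∧ ∑ i ∈ P, (f i : ℝ) * w i ≤ M := by
  classical
  induction P using Finset.induction_on with
  | empty =>
    intro _ M hM
    refine ⟨{0}, by simp, ?_⟩
    intro f hf
    rw [mem_singleton] at hf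
    subst hf
    simp [hM]
  | insert a P ha ih =>
    intro hw M hM
    have hwa : 0 < w a := hw a (mem_insert_self a P)
    have hwP : ∀ i ∈ P, 0 < w i := fun i hi => hw i (mem_insert_of_mem hi)
    have hprod : 0 < ∏ i ∈ P, w i := Finset.prod_pos hwP
    have ih' := ih hwP
    obtain ⟨K, hK⟩ : ∃ K : ℕ, K = ⌊M / w a⌋₊ := ⟨_, rfl⟩
    have h1 : ∀ j : ℕ, ∃ F : Finset (ι → ℕ),
        (j ≤ K → (M - j * w a) ^ P.card / (P.card.factorial * ∏ i ∈ P, w i) ≤ F.card) ∧
        ∀ f ∈ F, (∀ i, i ∉ P → f i = 0) ∧ (j ≤ K → ∑ i ∈ P, (f i : ℝ) * w i ≤ M - j * w a) := by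
      intro j
      by_cases hj : j ≤ K
      · have h6 : (j : ℝ) ≤ K := by exact_mod_cast hj
        have h7 : (K : ℝ) ≤ M / w a := by rw [hK]; exact Nat.floor_le (by positivity)
        have h8 : (j : ℝ) * w a ≤ M := (le_div_iff₀ hwa).1 (h6.trans h7)
        obtain ⟨F, h1, h2⟩ := ih' (M - j * w a) (by linarith)
        exact ⟨F, fun _ => h1, fun f hf => ⟨(h2 f hf).1, fun _ => (h2 f hf).2⟩⟩
      · exact ⟨∅, fun h => absurd h hj, fun f hf => absurd hf (Finset.notMem_empty f)⟩
    choose F hF1 hF2 using h1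
    refine ⟨(range (K + 1)).biUnion fun j => (F j).image fun f => Function.update f a j, ?_, ?_⟩
    · have hcard : ((range (K + 1)).biUnion fun j =>
          (F j).image fun f => Function.update f a j).card = ∑ j ∈ range (K + 1), (F j).card := by
        rw [card_biUnion]
        · refine sum_congr rfl fun j _ => card_image_of_injOn ?_
          intro f hf g hg hfg
          funext i
          by_cases hi : i = a
          · rw [hi, (hF2 j f hf).1 a ha, (hF2 j g hg).1 a ha]
          · have h9 := congrFun hfg i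
            simpa [Function.update_of_ne hi] using h9
        · intro j _ j' _ hne
          rw [Function.onFun, disjoint_left]
          intro g h1 h2
          rw [mem_image] at h1 h2
          obtain ⟨f, _, rfl⟩ := h1
          obtain ⟨f', _, h3⟩ := h2
          have h9 := congrFun h3 a
          rw [Function.update_self, Function.update_self] at h9
          exact hne h9.symm
      rw [hcard, card_insert_of_notMem ha, prod_insert ha]
      push_cast
      have hs := sum_ge P.card M (w a) hM hwa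
      rw [← hK] at hs
      calc M ^ (P.card + 1) / ((P.card + 1).factorial * (w a * ∏ i ∈ P, w i))
          = M ^ (P.card + 1) / (((P.card : ℝ) + 1) * w a) / (P.card.factorial * ∏ i ∈ P, w i) := by
            rw [Nat.factorial_succ]
            push_cast
            rw [div_div]
            congr 1
            ring
        _ ≤ (∑ j ∈ range (K + 1), (M - j * w a) ^ P.card) / (P.card.factorial * ∏ i ∈ P, w i) :=
            div_le_div_of_nonneg_right hs (by positivity)
        _ = ∑ j ∈ range (K + 1), (M - j * w a) ^ P.card / (P.card.factorial * ∏ i ∈ P, w i) :=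
            Finset.sum_div _ _ _
        _ ≤ ∑ j ∈ range (K + 1), ((F j).card : ℝ) := by
            refine Finset.sum_le_sum fun j hj => ?_
            rw [mem_range] at hj
            exact hF1 j (by omega)
    · intro g hg
      rw [mem_biUnion] at hg
      obtain ⟨j, hj, hg⟩ := hg
      rw [mem_image] at hg
      obtain ⟨f, hf, rfl⟩ := hg
      rw [mem_range] at hj
      obtain ⟨h1, h2⟩ := hF2 j f hf
      refine ⟨fun i hi => ?_, ?_⟩
      · rw [mem_insert, not_or] at hi
        rw [Function.update_of_ne hi.1]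
        exact h1 i hi.2
      · rw [sum_insert ha, Function.update_self]
        have h3 : ∑ i ∈ P, ((Function.update f a j i : ℕ) : ℝ) * w i = ∑ i ∈ P, (f i : ℝ) * w i := by
          refine sum_congr rfl fun i hi => ?_
          have hia : i ≠ a := fun h => ha (by rw [← h]; exact hi)
          rw [Function.update_of_ne hia]
        rw [h3]
        have h4 := h2 (by omega)
        linarith

theorem t_SIMP : S_SIMP := by
  intro ι P w M hw hM
  classical
  exact simp_aux ι w P hw M hM

end Pool.Agent.D0H9.AB
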